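import Pool.Agent.X234.FV.Nrm

/-!
# The boundary terms are divisible by `5^(a+3)`
-/

set_option autoImplicit false

namespace Pool.Agent.X234.FV

open Finset

/-- the product of the recurrence -/
noncomputable def PP (a : ℕ) : ℕ → Q5
  | 0 => 1
  | i + 1 => PP a i * (-(xx a i + 2) / (xx a i + 1))

lemma xx_ne1 (a i : ℕ) : xx a i + 1 ≠ 0 := by
  have := xx_ne a i 1; simpa using this

lemma xx_ne2 (a i : ℕ) : xx a i + 2 ≠ 0 := by
  have := xx_ne a i 2; simpa using this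

lemma PP_ne (a i : ℕ) : PP a i ≠ 0 := by
  induction i with
  | zero => simp [PP]
  | succ i ih => exact mul_ne_zero ih (div_ne_zero (neg_ne_zero.mpr (xx_ne2 a i)) (xx_ne1 a i))

lemma zero_small (a : ℕ) : ‖(0 : Q5)‖ ≤ ((5 : ℝ)⁻¹) ^ a := by
  rw [norm_zero]; positivity

lemma norm_x1 {a i : ℕ} (h : 2 * i + 1 < 5 ^ a) : ‖xx a i + 1‖ = ‖((2 * i + 1 : ℕ) : Q5)‖ := by
  have := norm_xx (a := a) (i := i) (r := 1) (by omega) h (zero_small a)
  simpa using this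

lemma norm_x2 {a i : ℕ} (h : 2 * i + 2 < 5 ^ a) : ‖xx a i + 2‖ = ‖((2 * i + 2 : ℕ) : Q5)‖ := by
  have := norm_xx (a := a) (i := i) (r := 2) (by omega) h (zero_small a)
  simpa using this

lemma nat_ne {n : ℕ} (h : 0 < n) : ‖(n : Q5)‖ ≠ 0 := by
  rw [norm_ne_zero_iff]; exact_mod_cast h.ne'

/-- `|P_i| |C(2i,i)| = 1` -/
lemma norm_PP {a : ℕ} (i : ℕ) (h : 2 * i < 5 ^ a) :
    ‖PP a i‖ * ‖((i.centralBinom : ℕ) : Q5)‖ = 1 := by
  induction i with
  | zero => simp [PP]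
  | succ i ih =>
    have ih' := ih (by omega)
    have h1 := Nat.succ_mul_centralBinom_succ i
    have h2 := congrArg (fun n : ℕ => ‖(n : Q5)‖) h1
    simp only [Nat.cast_mul, norm_mul] at h2
    have e2 : ‖((2 : ℕ) : Q5)‖ = 1 := norm_unit (by norm_num)
    have e3 : ‖((2 * i + 2 : ℕ) : Q5)‖ = ‖((i + 1 : ℕ) : Q5)‖ := by
      rw [show 2 * i + 2 = 2 * (i + 1) by ring, Nat.cast_mul, norm_mul, e2, one_mul]
    rw [e2] at h2
    unfold PP
    rw [norm_mul, norm_div, norm_neg, norm_x1 (by omega), norm_x2 (by omega), e3]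
    have m1 := nat_ne (n := 2 * i + 1) (by omega)
    rw [show ‖PP a i‖ * (‖((i + 1 : ℕ) : Q5)‖ / ‖((2 * i + 1 : ℕ) : Q5)‖) *
        ‖(((i + 1).centralBinom : ℕ) : Q5)‖ =
      ‖PP a i‖ * (‖((i + 1 : ℕ) : Q5)‖ * ‖(((i + 1).centralBinom : ℕ) : Q5)‖) /
        ‖((2 * i + 1 : ℕ) : Q5)‖ by ring, h2, div_eq_iff m1]
    linear_combination ‖((2 * i + 1 : ℕ) : Q5)‖ * ih'

lemma norm_cb_succ (i : ℕ) : ‖(((i + 1).centralBinom : ℕ) : Q5)‖ ≤ ‖((2 * i + 1 : ℕ) : Q5)‖ := by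
  obtain ⟨t, ht⟩ := Nat.succ_dvd_centralBinom i
  have h1 := Nat.succ_mul_centralBinom_succ i
  rw [ht] at h1
  have h2 : (i + 1).centralBinom = 2 * (2 * i + 1) * t := by
    have h3 : (i + 1) * (i + 1).centralBinom = (i + 1) * (2 * (2 * i + 1) * t) := by
      rw [h1]; ring
    exact Nat.eq_of_mul_eq_mul_left (Nat.succ_pos i) h3
  rw [h2, Nat.cast_mul, Nat.cast_mul, norm_mul, norm_mul]
  have e2 : ‖((2 : ℕ) : Q5)‖ = 1 := norm_unit (by norm_num)
  rw [e2, one_mul]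
  exact mul_le_of_le_one_right (norm_nonneg _) (norm_nat_le t)

/-- the boundary term of one step -/
noncomputable def BB (a i : ℕ) : Q5 :=
  -(2 * (2 * xx a i + 3) * ((5 ^ a : ℕ) - 1) * (((5 ^ a : ℕ) : Q5) ^ 2 * T0 (xx a i) (5 ^ a))) /
    ((xx a i + 1 - (5 ^ a : ℕ)) * (xx a i + 2 - (5 ^ a : ℕ)))

lemma norm_prod_ge {b i : ℕ} (h : 2 * i + 2 < 5 ^ (b + 1)) :
    ((5 : ℝ)⁻¹) ^ b ≤ ‖((2 * i + 1 : ℕ) : Q5)‖ * ‖((i + 1 : ℕ) : Q5)‖ := by
  by_cases h5 : 5 ∣ (i + 1)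
  · have h6 : ¬ 5 ∣ (2 * i + 1) := by omega
    rw [norm_unit h6, one_mul]
    exact norm_nat_ge (fun hd => absurd (Nat.le_of_dvd (by omega) hd) (by omega))
  · rw [norm_unit h5, mul_one]
    exact norm_nat_ge (fun hd => absurd (Nat.le_of_dvd (by omega) hd) (by omega))

lemma norm_BB {b i : ℕ} (h : 2 * i + 2 < 5 ^ (b + 1)) :
    ‖BB (b + 2) i / ((xx (b + 2) i + 1) * PP (b + 2) (i + 1))‖ ≤ ((5 : ℝ)⁻¹) ^ (b + 5) := by
  have hlt : 5 ^ (b + 1) ≤ 5 ^ (b + 2) := Nat.pow_le_pow_right (by norm_num) (by omega)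
  generalize ha : b + 2 = a at *
  have hN' : ‖-((5 ^ a : ℕ) : Q5)‖ ≤ ((5 : ℝ)⁻¹) ^ a := by
    rw [norm_neg]; push_cast; exact (norm5pow a).le
  have n3 : ‖xx a i + 1 - ((5 ^ a : ℕ) : Q5)‖ = ‖((2 * i + 1 : ℕ) : Q5)‖ := by
    have := norm_xx (a := a) (i := i) (r := 1) (by omega) (by omega) hN'
    simpa [sub_eq_add_neg] using this
  have n4 : ‖xx a i + 2 - ((5 ^ a : ℕ) : Q5)‖ = ‖((i + 1 : ℕ) : Q5)‖ := by
    have := norm_xx (a := a) (i := i) (r := 2) (by omega) (by omega) hN'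
    have e2 : ‖((2 : ℕ) : Q5)‖ = 1 := norm_unit (by norm_num)
    have e3 : ‖((2 * i + 2 : ℕ) : Q5)‖ = ‖((i + 1 : ℕ) : Q5)‖ := by
      rw [show 2 * i + 2 = 2 * (i + 1) by ring, Nat.cast_mul, norm_mul, e2, one_mul]
    rw [e3] at this
    simpa [sub_eq_add_neg] using this
  have n5 := norm_x1 (a := a) (i := i) (by omega)
  have n6 := norm_PP (a := a) (i + 1) (by omega)
  have n7 := norm_cb_succ i
  have n8 : ‖(((5 ^ a : ℕ) : Q5) ^ 2 * T0 (xx a i) (5 ^ a))‖ ≤ ((5 : ℝ)⁻¹) ^ (2 * a + 1) := by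
    rw [norm_mul, norm_T0 i (by omega), ← norm_mul]
    exact norm_bd0 a
  have hxx : ‖xx a i‖ ≤ 1 := by
    unfold xx
    apply nadd
    · rw [norm_neg, norm_cc]
      exact pow_le_one₀ (by norm_num) (by norm_num)
    · exact norm_nat_le _
  have n9 : ‖(2 : Q5) * (2 * xx a i + 3) * ((5 ^ a : ℕ) - 1)‖ ≤ 1 := by
    rw [norm_mul, norm_mul, norm2, one_mul]
    apply mul_le_one₀
    · apply nadd
      · rw [norm_mul, norm2, one_mul]; exact hxx
      · have := norm_nat_le 3; simpa using this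
    · exact norm_nonneg _
    · apply nsub (norm_nat_le _); simp
  have hn1 := nat_ne (n := 2 * i + 1) (by omega)
  have hn2 := nat_ne (n := i + 1) (by omega)
  have hP : ‖PP a (i + 1)‖ ≠ 0 := by rw [norm_ne_zero_iff]; exact PP_ne a (i + 1)
  unfold BB
  rw [norm_div, norm_div, norm_neg, norm_mul _ (((5 ^ a : ℕ) : Q5) ^ 2 * T0 (xx a i) (5 ^ a)),
    norm_mul (xx a i + 1 - ((5 ^ a : ℕ) : Q5)), norm_mul (xx a i + 1), n3, n4, n5]
  have n10 := norm_prod_ge h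
  have p1 : 0 < ‖((2 * i + 1 : ℕ) : Q5)‖ := lt_of_le_of_ne (norm_nonneg _) (Ne.symm hn1)
  have p2 : 0 < ‖((i + 1 : ℕ) : Q5)‖ := lt_of_le_of_ne (norm_nonneg _) (Ne.symm hn2)
  have p3 : 0 < ‖PP a (i + 1)‖ := lt_of_le_of_ne (norm_nonneg _) (Ne.symm hP)
  have q1 : 0 ≤ ‖(2 : Q5) * (2 * xx a i + 3) * ((5 ^ a : ℕ) - 1)‖ := norm_nonneg _
  have q2 : 0 ≤ ‖(((5 ^ a : ℕ) : Q5) ^ 2 * T0 (xx a i) (5 ^ a))‖ := norm_nonneg _
  have q3 : 0 ≤ ‖(((i + 1).centralBinom : ℕ) : Q5)‖ := norm_nonneg _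
  generalize ‖(2 : Q5) * (2 * xx a i + 3) * ((5 ^ a : ℕ) - 1)‖ = A at *
  generalize ‖(((5 ^ a : ℕ) : Q5) ^ 2 * T0 (xx a i) (5 ^ a))‖ = B at *
  generalize ‖((2 * i + 1 : ℕ) : Q5)‖ = U at *
  generalize ‖((i + 1 : ℕ) : Q5)‖ = V at *
  generalize ‖PP a (i + 1)‖ = P at *
  generalize ‖(((i + 1).centralBinom : ℕ) : Q5)‖ = C at *
  have e1 : A * B / (U * V) / (U * P) = A * B * (C / U) / (U * V) := by
    have : C = 1 / P := by rw [eq_div_iff hP]; linear_combination n6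
    rw [this]; field_simp
  rw [e1, div_le_iff₀ (mul_pos p1 p2)]
  have c1 : C / U ≤ 1 := by rw [div_le_one p1]; exact n7
  have c2 : A * B ≤ 1 * ((5 : ℝ)⁻¹) ^ (2 * a + 1) := mul_le_mul n9 n8 q2 (by norm_num)
  have c3 : A * B * (C / U) ≤ 1 * ((5 : ℝ)⁻¹) ^ (2 * a + 1) * 1 :=
    mul_le_mul c2 c1 (div_nonneg q3 p1.le) (by positivity)
  refine c3.trans ?_
  have c4 : ((5 : ℝ)⁻¹) ^ (b + 5) * ((5 : ℝ)⁻¹) ^ b ≤ ((5 : ℝ)⁻¹) ^ (b + 5) * (U * V) :=
    mul_le_mul_of_nonneg_left n10 (by positivity)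
  refine le_trans (le_of_eq ?_) c4
  rw [← ha]
  ring

/-- the recurrence solved -/
theorem ff_div (b : ℕ) (i : ℕ) (h : 2 * i < 5 ^ (b + 1)) :
    ‖ff (xx (b + 2) i) (5 ^ (b + 2)) / PP (b + 2) i - ff (xx (b + 2) 0) (5 ^ (b + 2))‖ ≤
      ((5 : ℝ)⁻¹) ^ (b + 5) := by
  induction i with
  | zero =>
    simp only [PP, div_one, sub_self, norm_zero]
    positivity
  | succ i ih =>
    have ih' := ih (by omega)
    have hb := norm_BB (b := b) (i := i) (by omega)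
    generalize b + 2 = a at *
    have hr := ff_rec (xx a i) (xx_ne a i) (5 ^ a)
    have hB : (xx a i + 1) * ff (xx a i + 2) (5 ^ a) + (xx a i + 2) * ff (xx a i) (5 ^ a) =
        BB a i := by
      rw [hr]; rfl
    have e1 : ff (xx a (i + 1)) (5 ^ a) / PP a (i + 1) = ff (xx a i) (5 ^ a) / PP a i +
        BB a i / ((xx a i + 1) * PP a (i + 1)) := by
      rw [xx_succ, ← hB]
      have h1 := xx_ne1 a i
      have h2 := xx_ne2 a i
      have h3 := PP_ne a i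
      have e2 : PP a (i + 1) = PP a i * (-(xx a i + 2) / (xx a i + 1)) := rfl
      rw [e2]
      field_simp
      ring
    rw [e1, show ff (xx a i) (5 ^ a) / PP a i + BB a i / ((xx a i + 1) * PP a (i + 1)) -
      ff (xx a 0) (5 ^ a) = (ff (xx a i) (5 ^ a) / PP a i - ff (xx a 0) (5 ^ a)) +
        BB a i / ((xx a i + 1) * PP a (i + 1)) by ring]
    exact nadd ih' hb

/-- `P_i C(2i,i) ≡ (-4)^i` modulo 5 -/
theorem PP_congr {a : ℕ} (i : ℕ) (h : 2 * i < 5 ^ a) :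
    ‖PP a i * ((i.centralBinom : ℕ) : Q5) - (-4) ^ i‖ ≤ (5 : ℝ)⁻¹ := by
  induction i with
  | zero => simp [PP]
  | succ i ih =>
    have ih' := ih (by omega)
    have n6 := norm_PP (a := a) i (by omega)
    have h1 := Nat.succ_mul_centralBinom_succ i
    have h2 := congrArg (fun n : ℕ => (n : Q5)) h1
    push_cast at h2
    have m1 : ((i : Q5) + 1) ≠ 0 := by exact_mod_cast Nat.succ_ne_zero i
    have m2 : (2 * (i : Q5) + 1) ≠ 0 := by exact_mod_cast Nat.succ_ne_zero (2 * i)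
    have h3 := xx_ne1 a i
    have e1 : PP a (i + 1) * (((i + 1).centralBinom : ℕ) : Q5) =
        PP a i * ((i.centralBinom : ℕ) : Q5) * (-4) *
          ((xx a i + 2) / (2 * (i + 1)) * ((2 * i + 1) / (xx a i + 1))) := by
      have e2 : PP a (i + 1) = PP a i * (-(xx a i + 2) / (xx a i + 1)) := rfl
      have e3 : (((i + 1).centralBinom : ℕ) : Q5) =
          2 * (2 * i + 1) * ((i.centralBinom : ℕ) : Q5) / (i + 1) := by
        rw [eq_div_iff m1, ← h2]; ring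
      rw [e2, e3]
      field_simp
      ring
    -- the correction factor
    have hc1 := norm_cc_div (a := a) (k := 2 * i + 1) (by omega)
    have hc2 := norm_cc_div (a := a) (k := 2 * i + 2) (by omega)
    have k1 : (xx a i + 2) / (2 * (i + 1)) = 1 - cc a / ((2 * i + 2 : ℕ) : Q5) := by
      unfold xx; push_cast; field_simp; ring
    have k2 : (xx a i + 1) / (2 * i + 1) = 1 - cc a / ((2 * i + 1 : ℕ) : Q5) := by
      unfold xx; push_cast; field_simp; ring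
    have k3 : ‖(xx a i + 1) / (2 * (i : Q5) + 1)‖ = 1 := by
      rw [norm_div]
      have n5 := norm_x1 (a := a) (i := i) (by omega)
      have hn1 := nat_ne (n := 2 * i + 1) (by omega)
      rw [n5]
      push_cast at hn1 ⊢
      exact div_self hn1
    have k4 : ‖(xx a i + 2) / (2 * ((i : Q5) + 1)) * ((2 * i + 1) / (xx a i + 1)) - 1‖ ≤
        (5 : ℝ)⁻¹ := by
      have e5 : (xx a i + 2) / (2 * ((i : Q5) + 1)) * ((2 * i + 1) / (xx a i + 1)) - 1 =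
          ((xx a i + 2) / (2 * ((i : Q5) + 1)) - (xx a i + 1) / (2 * i + 1)) /
            ((xx a i + 1) / (2 * i + 1)) := by
        field_simp
      rw [e5, norm_div, k3, div_one, k1, k2]
      have e6 : (1 : Q5) - cc a / ((2 * i + 2 : ℕ) : Q5) - (1 - cc a / ((2 * i + 1 : ℕ) : Q5)) =
          cc a / ((2 * i + 1 : ℕ) : Q5) - cc a / ((2 * i + 2 : ℕ) : Q5) := by ring
      rw [e6]
      exact nsub hc1 hc2
    rw [e1]
    generalize (xx a i + 2) / (2 * ((i : Q5) + 1)) * ((2 * i + 1) / (xx a i + 1)) = R at *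
    have e7 : PP a i * ((i.centralBinom : ℕ) : Q5) * (-4) * R - (-4) ^ (i + 1) =
        PP a i * ((i.centralBinom : ℕ) : Q5) * (-4) * (R - 1) +
          (-4) * (PP a i * ((i.centralBinom : ℕ) : Q5) - (-4) ^ i) := by ring
    have n4 : ‖(-4 : Q5)‖ = 1 := by
      have := norm_unit (n := 4) (by norm_num)
      rw [norm_neg]; simpa using this
    rw [e7]
    apply nadd
    · rw [norm_mul, norm_mul, norm_mul, n6, n4]
      linarith
    · rw [norm_mul, n4, one_mul]; exact ih'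

end Pool.Agent.X234.FV
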