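import Pool.Agent.X234.FV.Val

/-!
# The sum of the problem
-/

set_option autoImplicit false

namespace Pool.Agent.X234.FV

open Finset

/-- the sum `S_a` of the problem -/
def SS (a : ℕ) : ℚ :=
  ∑ k ∈ range (5 ^ a), (k : ℚ) * ((6 * k).choose (3 * k) : ℚ) * ((3 * k).choose k : ℚ) / 864 ^ k

lemma choose_T0 {K : Type*} [Field K] [CharZero K] (k : ℕ) :
    ((6 * k).choose (3 * k) : K) * ((3 * k).choose k : K) / 864 ^ k = T0 (-1 / 6 : K) k := by
  have f1 : ∀ k : ℕ, ((6 * k).choose (3 * k)) * ((3 * k).choose k) *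
      ((3 * k).factorial * (2 * k).factorial * k.factorial) = (6 * k).factorial := by
    intro k
    have h1 := Nat.choose_mul_factorial_mul_factorial (n := 6 * k) (k := 3 * k) (by omega)
    have h2 := Nat.choose_mul_factorial_mul_factorial (n := 3 * k) (k := k) (by omega)
    rw [show 6 * k - 3 * k = 3 * k by omega] at h1
    rw [show 3 * k - k = 2 * k by omega] at h2
    calc _ = (6 * k).choose (3 * k) * ((3 * k).choose k * k.factorial * (2 * k).factorial) *
          (3 * k).factorial := by ring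
      _ = (6 * k).choose (3 * k) * (3 * k).factorial * (3 * k).factorial := by rw [h2]
      _ = _ := h1
  induction k with
  | zero => simp [T0]
  | succ k ih =>
    rw [T0_succ, ← ih]
    have g1 := congrArg (fun n : ℕ => (n : K)) (f1 k)
    have g2 := congrArg (fun n : ℕ => (n : K)) (f1 (k + 1))
    rw [show 6 * (k + 1) = 6 * k + 1 + 1 + 1 + 1 + 1 + 1 by ring,
      show 3 * (k + 1) = 3 * k + 1 + 1 + 1 by ring, show 2 * (k + 1) = 2 * k + 1 + 1 by ring] at g2
    rw [show 6 * (k + 1) = 6 * k + 1 + 1 + 1 + 1 + 1 + 1 by ring,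
      show 3 * (k + 1) = 3 * k + 1 + 1 + 1 by ring]
    simp only [Nat.factorial_succ] at g2
    have n1 : ((3 * k).factorial : K) ≠ 0 := by exact_mod_cast (Nat.factorial_pos _).ne'
    have n2 : ((2 * k).factorial : K) ≠ 0 := by exact_mod_cast (Nat.factorial_pos _).ne'
    have n3 : (k.factorial : K) ≠ 0 := by exact_mod_cast (Nat.factorial_pos _).ne'
    push_cast at g1 g2
    generalize ((6 * k + 1 + 1 + 1 + 1 + 1 + 1).choose (3 * k + 1 + 1 + 1) : K) = C1 at *
    generalize ((3 * k + 1 + 1 + 1).choose (k + 1) : K) = C2 at *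
    generalize ((6 * k).choose (3 * k) : K) = D1 at *
    generalize ((3 * k).choose k : K) = D2 at *
    generalize ((6 * k).factorial : K) = F6 at *
    generalize ((3 * k).factorial : K) = F3 at *
    generalize ((2 * k).factorial : K) = F2 at *
    generalize (k.factorial : K) = F1 at *
    have hk1 : (k : K) + 1 ≠ 0 := by exact_mod_cast Nat.succ_ne_zero k
    have hk2 : 2 * (k : K) + 1 ≠ 0 := by exact_mod_cast Nat.succ_ne_zero (2 * k)
    have hk3 : 3 * (k : K) + 1 ≠ 0 := by exact_mod_cast Nat.succ_ne_zero (3 * k)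
    have hk4 : 3 * (k : K) + 1 + 1 ≠ 0 := by exact_mod_cast Nat.succ_ne_zero (3 * k + 1)
    subst g1
    have key : C1 * C2 * (k + 1) ^ 2 = D1 * D2 * (12 * (6 * k + 1) * (6 * k + 5)) := by
      have hne : ((3 * (k : K) + 1) * (3 * k + 1 + 1) * (3 * (k + 1)) * (2 * k + 1) * 2 *
        (F3 * F2 * F1)) ≠ 0 := by
        refine mul_ne_zero (mul_ne_zero (mul_ne_zero (mul_ne_zero (mul_ne_zero hk3 hk4) ?_) hk2) ?_) ?_
        · exact mul_ne_zero (by norm_num) hk1
        · norm_num
        · exact mul_ne_zero (mul_ne_zero n1 n2) n3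
      apply mul_right_cancel₀ hne
      linear_combination g2
    field_simp
    linear_combination 72 * 864 ^ k * key

lemma T0_symm {K : Type*} [Field K] [CharZero K] (k : ℕ) :
    T0 (-5 / 6 : K) k = T0 (-1 / 6 : K) k := by
  unfold T0
  refine prod_congr rfl fun j _ => ?_
  ring

lemma SS_eq (a : ℕ) : ((SS a : ℚ) : Q5) = ff (-1 / 6) (5 ^ a) := by
  unfold SS ff
  push_cast
  refine sum_congr rfl fun k _ => ?_
  rw [← choose_T0]
  ring

lemma SS_eq' (a : ℕ) : ((SS a : ℚ) : Q5) = ff (-5 / 6) (5 ^ a) := by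
  rw [SS_eq]
  unfold ff
  refine sum_congr rfl fun k _ => ?_
  rw [T0_symm]

/-- the number of steps of the recurrence -/
def nn : ℕ → ℕ
  | 0 => 0
  | a + 1 => if a % 2 = 0 then 5 * nn a else 5 * nn a + 2

lemma nn_val (a : ℕ) : (a % 2 = 0 → 12 * nn a + 1 = 5 ^ a) ∧ (a % 2 = 1 → 12 * nn a + 5 = 5 ^ a) := by
  induction a with
  | zero => exact ⟨fun _ => by simp [nn], fun h => by simp at h⟩
  | succ a ih =>
    obtain ⟨h1, h2⟩ := ih
    unfold nn
    split_ifs with h
    · refine ⟨fun h' => by omega, fun _ => ?_⟩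
      have := h1 h
      rw [pow_succ]; omega
    · refine ⟨fun _ => ?_, fun h' => by omega⟩
      have := h2 (by omega)
      rw [pow_succ]; omega

lemma nn_cb (a : ℕ) : (nn a).centralBinom ≡ 1 [MOD 5] := by
  induction a with
  | zero => simp [nn, Nat.centralBinom]; rfl
  | succ a ih =>
    unfold nn
    split_ifs with h
    · unfold Nat.centralBinom at ih ⊢
      have h1 := Choose.choose_modEq_choose_mod_mul_choose_div_nat (p := 5)
        (n := 2 * (5 * nn a)) (k := 5 * nn a)
      rw [show 2 * (5 * nn a) % 5 = 0 by omega, show 5 * nn a % 5 = 0 by omega,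
        show 2 * (5 * nn a) / 5 = 2 * nn a by omega, show 5 * nn a / 5 = nn a by omega,
        Nat.choose_self, one_mul] at h1
      exact h1.trans ih
    · unfold Nat.centralBinom at ih ⊢
      have h1 := Choose.choose_modEq_choose_mod_mul_choose_div_nat (p := 5)
        (n := 2 * (5 * nn a + 2)) (k := 5 * nn a + 2)
      rw [show 2 * (5 * nn a + 2) % 5 = 4 by omega, show (5 * nn a + 2) % 5 = 2 by omega,
        show 2 * (5 * nn a + 2) / 5 = 2 * nn a by omega, show (5 * nn a + 2) / 5 = nn a by omega,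
        show Nat.choose 4 2 = 6 by decide] at h1
      refine h1.trans ?_
      have h2 := Nat.ModEq.mul_left 6 ih
      exact h2.trans (by decide)

lemma cb_close (a : ℕ) : ‖(((nn a).centralBinom : ℕ) : Q5) - 1‖ ≤ q := by
  have h := nn_cb a
  have hd : ((5 ^ 1 : ℕ) : ℤ) ∣ (((nn a).centralBinom : ℕ) : ℤ) - 1 := by
    have := (Nat.modEq_iff_dvd.mp h.symm)
    simpa using this
  have h2 := (Padic.norm_int_le_pow_iff_dvd (p := 5) ((((nn a).centralBinom : ℕ) : ℤ) - 1) 1).mpr
    (by exact_mod_cast hd)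
  rw [pow_conv, pow_one] at h2
  push_cast at h2
  exact h2

/-- the main estimate for `a ≥ 2` -/
theorem main_est (b : ℕ) : ‖((SS (b + 2) : ℚ) : Q5) - 75 * 5 ^ (b + 2)‖ ≤ q ^ (b + 5) := by
  obtain ⟨hv1, hv2⟩ := nn_val (b + 2)
  have hlt : 2 * nn (b + 2) < 5 ^ (b + 1) := by
    have e : 5 ^ (b + 2) = 5 * 5 ^ (b + 1) := by rw [pow_succ]; ring
    rcases Nat.mod_two_eq_zero_or_one (b + 2) with h | h
    · have := hv1 h; omega
    · have := hv2 h; omega
  have hlt2 : 2 * nn (b + 2) < 5 ^ (b + 2) :=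
    lt_of_lt_of_le hlt (Nat.pow_le_pow_right (by norm_num) (by omega))
  have hS : ((SS (b + 2) : ℚ) : Q5) = ff (xx (b + 2) (nn (b + 2))) (5 ^ (b + 2)) := by
    rcases Nat.mod_two_eq_zero_or_one (b + 2) with h | h
    · have h1 := hv1 h
      have h2 := congrArg (fun n : ℕ => (n : Q5)) h1
      push_cast at h2
      have h3 : xx (b + 2) (nn (b + 2)) = -1 / 6 := by
        unfold xx cc
        push_cast
        rw [← h2]; ring
      rw [h3, SS_eq]
    · have h1 := hv2 h
      have h2 := congrArg (fun n : ℕ => (n : Q5)) h1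
      push_cast at h2
      have h3 : xx (b + 2) (nn (b + 2)) = -5 / 6 := by
        unfold xx cc
        push_cast
        rw [← h2]; ring
      rw [h3, SS_eq']
  have hd := ff_div b (nn (b + 2)) hlt
  have hP := PP_congr (a := b + 2) (nn (b + 2)) hlt2
  have hn := norm_PP (a := b + 2) (nn (b + 2)) hlt2
  have hc := cb_close (b + 2)
  have hne := PP_ne (b + 2) (nn (b + 2))
  obtain ⟨A, hA, hA2⟩ := base_val b
  have n4 : ‖(-4 : Q5)‖ ≤ 1 := by
    have := norm_nat_le 4
    rw [norm_neg]; simpa using this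
  have h4 : ‖(-4 : Q5) ^ (nn (b + 2)) - 1 ^ (nn (b + 2))‖ ≤ q := by
    apply pow_sub_le n4 (by simp) _ (by positivity)
    have e : (-4 : Q5) - 1 = -5 := by norm_num
    rw [e, norm_neg, norm5]
  rw [one_pow] at h4
  rw [hS]
  generalize ff (xx (b + 2) (nn (b + 2))) (5 ^ (b + 2)) = Y at *
  generalize PP (b + 2) (nn (b + 2)) = P at *
  generalize (((nn (b + 2)).centralBinom : ℕ) : Q5) = C at *
  generalize (-4 : Q5) ^ (nn (b + 2)) = F at *
  rw [hA] at hd
  -- norm of C and P
  have hC : ‖C‖ = 1 := by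
    have e : C = 1 + (C - 1) := by ring
    rw [e, norm_add_small]
    · simp
    · rw [norm_one]; exact lt_of_le_of_lt hc (by norm_num)
  rw [hC, mul_one] at hn
  have hP1 : ‖P - 1‖ ≤ q := by
    have e : P - 1 = (P * C - F) + (F - 1) - P * (C - 1) := by ring
    rw [e]
    refine nsub (nadd hP h4) ?_
    rw [norm_mul, hn, one_mul]; exact hc
  have hA3 : ‖A‖ ≤ q ^ 2 := by
    have e : A = (A - 75) + 5 ^ 2 * 3 := by ring
    rw [e]
    apply nadd (hA2.trans (q_pow_le (by norm_num)))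
    rw [norm_mul, norm5pow]
    exact mul_le_of_le_one_right (by positivity) norm3
  have hY : Y - 75 * 5 ^ (b + 2) = P * (Y / P - cc (b + 2) * A) + (P - 1) * (cc (b + 2) * A) +
      cc (b + 2) * (A - 75) - cc (b + 2) * (5 ^ 3 * 3) := by
    have e2 : P * (Y / P - cc (b + 2) * A) = Y - P * (cc (b + 2) * A) := by
      field_simp
    rw [e2]
    unfold cc
    ring
  rw [hY]
  have hcc := norm_cc (b + 2)
  have e5 : q ^ (b + 5) = q ^ (b + 2) * q ^ 3 := by ring
  refine nsub (nadd (nadd ?_ ?_) ?_) ?_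
  · rw [norm_mul, hn, one_mul]; exact hd
  · rw [norm_mul, norm_mul, hcc, e5]
    calc ‖P - 1‖ * ((5 : ℝ)⁻¹ ^ (b + 2) * ‖A‖) ≤ q * (q ^ (b + 2) * q ^ 2) := by
          apply mul_le_mul hP1 _ (by positivity) (by positivity)
          exact mul_le_mul_of_nonneg_left hA3 (by positivity)
      _ = q ^ (b + 2) * q ^ 3 := by ring
  · rw [norm_mul, hcc, e5]
    exact mul_le_mul_of_nonneg_left hA2 (by positivity)
  · rw [norm_mul, norm_mul, hcc, norm5pow, e5]
    refine mul_le_mul_of_nonneg_left ?_ (by positivity)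
    exact mul_le_of_le_one_right (by positivity) norm3

lemma den_of_norm {x : ℚ} (h : ‖(x : Q5)‖ ≤ 1) : ¬ 5 ∣ x.den := by
  intro hd
  have h1 : ¬ (5 : ℤ) ∣ x.num := by
    intro hn
    have h2 := x.reduced
    have h3 : 5 ∣ x.num.natAbs := Int.natCast_dvd.mp (by exact_mod_cast hn)
    have h4 := Nat.dvd_gcd h3 hd
    rw [Nat.coprime_iff_gcd_eq_one.mp h2] at h4
    norm_num at h4
  have h2 : ‖(x.num : Q5)‖ = 1 := by
    apply le_antisymm (norm_int_le _)
    by_contra hc
    rw [not_le] at hc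
    exact h1 (by exact_mod_cast (Padic.norm_intCast_lt_one_iff (p := 5)).mp hc)
  have h3 : ‖((x.den : ℕ) : Q5)‖ < 1 := Padic.norm_natCast_lt_one_iff.mpr hd
  have h4 : (x : Q5) = (x.num : Q5) / ((x.den : ℕ) : Q5) := by
    have := Rat.num_div_den x
    have h5 := congrArg (fun y : ℚ => (y : Q5)) this
    push_cast at h5
    exact h5.symm
  rw [h4, norm_div, h2] at h
  have h5 : 0 < ‖((x.den : ℕ) : Q5)‖ := by
    rw [norm_pos_iff]; exact_mod_cast x.den_nz
  rw [div_le_one h5] at h
  linarith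

/-- the theorem -/
theorem main (a : ℕ) (ha : 1 ≤ a) : ¬ 5 ∣ ((SS a / 5 ^ a - 75) / 125).den := by
  rcases Nat.lt_or_ge a 2 with h | h
  · have : a = 1 := by omega
    subst this
    have e : (SS 1 / 5 ^ 1 - 75) / 125 = (-2321064143 : ℤ) / ((3869835264 : ℕ) : ℤ) := by
      unfold SS
      simp only [pow_one, sum_range_succ, sum_range_zero]
      norm_num [Nat.choose]
    apply den_of_norm
    rw [e]
    push_cast
    have h1 : ‖((-2321064143 : ℤ) : Q5)‖ ≤ 1 := norm_int_le _
    have h2 : ‖((3869835264 : ℕ) : Q5)‖ = 1 := norm_unit (by norm_num)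
    push_cast at h1 h2
    rw [norm_div, h2, div_one]
    exact h1
  · obtain ⟨b, rfl⟩ : ∃ b, a = b + 2 := ⟨a - 2, by omega⟩
    apply den_of_norm
    have h1 := main_est b
    have h5 : (5 : Q5) ^ (b + 2) ≠ 0 := pow_ne_zero _ (by norm_num)
    have e : (((SS (b + 2) / 5 ^ (b + 2) - 75) / 125 : ℚ) : Q5) =
        (((SS (b + 2) : ℚ) : Q5) - 75 * 5 ^ (b + 2)) / 5 ^ (b + 5) := by
      push_cast
      rw [show b + 5 = b + 2 + 3 by ring, pow_add (5 : Q5) (b + 2) 3]
      field_simp
      ring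
    rw [e, norm_div, norm5pow, div_le_one (by positivity)]
    exact h1

end Pool.Agent.X234.FV
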