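import Pool.Agent.X234.FV.Rec

/-!
# 5-adic estimates for the boundary terms
-/

set_option autoImplicit false

namespace Pool.Agent.X234.FV

open Finset

instance fact5 : Fact (Nat.Prime 5) := ⟨by norm_num⟩

/-- the 5-adic numbers -/
abbrev Q5 := ℚ_[5]

lemma norm5 : ‖(5 : Q5)‖ = (5 : ℝ)⁻¹ := by
  have := Padic.norm_p (p := 5)
  simpa using this

lemma norm5pow (a : ℕ) : ‖(5 : Q5) ^ a‖ = ((5 : ℝ)⁻¹) ^ a := by
  rw [norm_pow, norm5]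

lemma norm_int_le (z : ℤ) : ‖(z : Q5)‖ ≤ 1 := Padic.norm_int_le_one z

lemma norm_nat_le (n : ℕ) : ‖(n : Q5)‖ ≤ 1 := by
  have := norm_int_le (n : ℤ)
  simpa using this

lemma pow_conv (e : ℕ) : ((5 : ℕ) : ℝ) ^ (-(e : ℤ)) = ((5 : ℝ)⁻¹) ^ e := by
  rw [zpow_neg, zpow_natCast, inv_pow]; norm_num

lemma norm_nat_gt {n e : ℕ} (h : ¬ 5 ^ e ∣ n) : ((5 : ℝ)⁻¹) ^ e < ‖(n : Q5)‖ := by
  by_contra hc
  rw [not_lt] at hc
  apply h
  have h1 : ‖((n : ℤ) : Q5)‖ ≤ ((5 : ℕ) : ℝ) ^ (-(e : ℤ)) := by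
    rw [pow_conv]; simpa using hc
  have h2 := (Padic.norm_int_le_pow_iff_dvd (p := 5) (n : ℤ) e).mp h1
  exact_mod_cast h2

lemma norm_nat_ge {n e : ℕ} (h : ¬ 5 ^ (e + 1) ∣ n) : ((5 : ℝ)⁻¹) ^ e ≤ ‖(n : Q5)‖ := by
  by_contra hc
  rw [not_le] at hc
  have h1 := norm_nat_gt h
  have h3 : ¬ ‖(n : Q5)‖ ≤ ((5 : ℕ) : ℝ) ^ (-((e + 1 : ℕ) : ℤ)) := by
    rw [pow_conv]; exact not_le.mpr h1
  rw [Padic.norm_le_pow_iff_norm_lt_pow_add_one] at h3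
  apply h3
  rw [show (-((e + 1 : ℕ) : ℤ) + 1) = -(e : ℤ) by push_cast; ring, pow_conv]
  exact hc

lemma norm_unit {n : ℕ} (h : ¬ 5 ∣ n) : ‖(n : Q5)‖ = 1 := by
  apply le_antisymm (norm_nat_le n)
  have := norm_nat_ge (n := n) (e := 0) (by simpa using h)
  simpa using this

lemma norm_add_small {s d : Q5} (h : ‖d‖ < ‖s‖) : ‖s + d‖ = ‖s‖ := by
  rw [IsUltrametricDist.norm_add_eq_max_of_norm_ne_norm (ne_of_gt h)]
  exact max_eq_left h.le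

lemma nadd {x y : Q5} {C : ℝ} (hx : ‖x‖ ≤ C) (hy : ‖y‖ ≤ C) : ‖x + y‖ ≤ C :=
  (IsUltrametricDist.norm_add_le_max x y).trans (max_le hx hy)

lemma nsub {x y : Q5} {C : ℝ} (hx : ‖x‖ ≤ C) (hy : ‖y‖ ≤ C) : ‖x - y‖ ≤ C := by
  rw [sub_eq_add_neg]
  exact nadd hx (by rwa [norm_neg])

lemma nsum {ι : Type*} {s : Finset ι} {f : ι → Q5} {C : ℝ} (hC : 0 ≤ C)
    (h : ∀ i ∈ s, ‖f i‖ ≤ C) : ‖∑ i ∈ s, f i‖ ≤ C :=
  IsUltrametricDist.norm_sum_le_of_forall_le_of_nonneg hC h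

/-- `5^a / 6` -/
noncomputable def cc (a : ℕ) : Q5 := 5 ^ a / 6

lemma norm6 : ‖(6 : Q5)‖ = 1 := by
  have := norm_unit (n := 6) (by norm_num)
  simpa using this

lemma norm2 : ‖(2 : Q5)‖ = 1 := by
  have := norm_unit (n := 2) (by norm_num)
  simpa using this

lemma norm_cc (a : ℕ) : ‖cc a‖ = ((5 : ℝ)⁻¹) ^ a := by
  unfold cc
  rw [norm_div, norm5pow, norm6, div_one]

lemma cc_ne (a : ℕ) (z : ℤ) : -cc a + z ≠ 0 := by
  unfold cc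
  intro h
  have h1 : ((5 : Q5)) ^ a = 6 * z := by
    field_simp at h
    linear_combination -h
  have h2 : ((5 : ℤ)) ^ a = 6 * z := by exact_mod_cast h1
  have h3 : (2 : ℤ) ∣ 5 ^ a := ⟨3 * z, by rw [h2]; ring⟩
  have h4 := Int.prime_two.dvd_of_dvd_pow h3
  norm_num at h4

/-- perturbing a small natural number by a small quantity does not change its size -/
lemma norm_pert {a s : ℕ} (h0 : 0 < s) (h1 : s < 5 ^ a) {d : Q5} (hd : ‖d‖ ≤ ((5 : ℝ)⁻¹) ^ a) :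
    ‖(s : Q5) + d‖ = ‖(s : Q5)‖ := by
  apply norm_add_small
  apply lt_of_le_of_lt hd
  apply norm_nat_gt
  intro h
  exact absurd (Nat.le_of_dvd h0 h) (by omega)

/-- the base points of the recurrence -/
noncomputable def xx (a i : ℕ) : Q5 := -cc a + ((2 * i : ℕ) : Q5)

lemma xx_succ (a i : ℕ) : xx a (i + 1) = xx a i + 2 := by
  unfold xx; push_cast; ring

lemma xx_ne (a i : ℕ) (z : ℤ) : xx a i + z ≠ 0 := by
  unfold xx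
  have := cc_ne a (((2 * i : ℕ) : ℤ) + z)
  push_cast at this ⊢
  intro h
  exact this (by linear_combination h)

lemma norm_xx {a i r : ℕ} (h0 : 0 < 2 * i + r) (h1 : 2 * i + r < 5 ^ a) {d : Q5}
    (hd : ‖d‖ ≤ ((5 : ℝ)⁻¹) ^ a) : ‖xx a i + r + d‖ = ‖((2 * i + r : ℕ) : Q5)‖ := by
  have e : xx a i + r + d = ((2 * i + r : ℕ) : Q5) + (d - cc a) := by
    unfold xx; push_cast; ring
  rw [e]
  exact norm_pert h0 h1 (nsub hd (norm_cc a).le)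

lemma norm_T0 {a : ℕ} (i : ℕ) (h : 2 * i < 5 ^ a) :
    ‖T0 (xx a i) (5 ^ a)‖ = ‖T0 (xx a 0) (5 ^ a)‖ := by
  induction i with
  | zero => rfl
  | succ i ih =>
    have ih' := ih (by omega)
    rw [← ih', xx_succ]
    have h1 := T0_shift (xx a i) (xx_ne a i) (5 ^ a)
    have hN : ‖((5 ^ a : ℕ) : Q5)‖ ≤ ((5 : ℝ)⁻¹) ^ a := by
      push_cast; exact (norm5pow a).le
    have hN' : ‖-((5 ^ a : ℕ) : Q5)‖ ≤ ((5 : ℝ)⁻¹) ^ a := by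
      rw [norm_neg]; exact hN
    have n1 : ‖xx a i + 1 + ((5 ^ a : ℕ) : Q5)‖ = ‖((2 * i + 1 : ℕ) : Q5)‖ := by
      have := norm_xx (a := a) (i := i) (r := 1) (by omega) (by omega) hN
      simpa using this
    have n2 : ‖xx a i + 2 + ((5 ^ a : ℕ) : Q5)‖ = ‖((2 * i + 2 : ℕ) : Q5)‖ := by
      have := norm_xx (a := a) (i := i) (r := 2) (by omega) (by omega) hN
      simpa using this
    have n3 : ‖xx a i + 1 - ((5 ^ a : ℕ) : Q5)‖ = ‖((2 * i + 1 : ℕ) : Q5)‖ := by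
      have := norm_xx (a := a) (i := i) (r := 1) (by omega) (by omega) hN'
      simpa [sub_eq_add_neg] using this
    have n4 : ‖xx a i + 2 - ((5 ^ a : ℕ) : Q5)‖ = ‖((2 * i + 2 : ℕ) : Q5)‖ := by
      have := norm_xx (a := a) (i := i) (r := 2) (by omega) (by omega) hN'
      simpa [sub_eq_add_neg] using this
    have h2 := congrArg (fun y : Q5 => ‖y‖) h1
    simp only [norm_mul] at h2
    rw [n1, n2, n3, n4] at h2
    have m1 : ‖((2 * i + 1 : ℕ) : Q5)‖ ≠ 0 := by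
      rw [norm_ne_zero_iff]; exact_mod_cast Nat.succ_ne_zero (2 * i)
    have m2 : ‖((2 * i + 2 : ℕ) : Q5)‖ ≠ 0 := by
      rw [norm_ne_zero_iff]; exact_mod_cast Nat.succ_ne_zero (2 * i + 1)
    exact mul_right_cancel₀ (mul_ne_zero m1 m2) h2

lemma xx_zero (a : ℕ) : xx a 0 = -cc a := by
  unfold xx; simp

/-- for `0 < k < 5^a` the quotient `c/k` is divisible by 5 -/
lemma norm_cc_div {a k : ℕ} (h1 : k < 5 ^ a) : ‖cc a / (k : Q5)‖ ≤ (5 : ℝ)⁻¹ := by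
  rcases Nat.eq_zero_or_pos k with h0 | h0
  · subst h0; simp
  rcases Nat.eq_zero_or_pos a with ha | ha
  · subst ha; omega
  obtain ⟨b, rfl⟩ : ∃ b, a = b + 1 := ⟨a - 1, by omega⟩
  rw [norm_div, norm_cc]
  have h2 : ((5 : ℝ)⁻¹) ^ b ≤ ‖(k : Q5)‖ :=
    norm_nat_ge (fun h => absurd (Nat.le_of_dvd h0 h) (by omega))
  have h3 : 0 < ‖(k : Q5)‖ := lt_of_lt_of_le (by positivity) h2
  rw [div_le_iff₀ h3, pow_succ, mul_comm]
  exact mul_le_mul_of_nonneg_left h2 (by positivity)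

lemma norm_cc_div_sq {a k : ℕ} (h1 : k < 5 ^ a) :
    ‖cc a ^ 2 / (k : Q5) ^ 2‖ ≤ ((5 : ℝ)⁻¹) ^ 2 := by
  rw [← div_pow, norm_pow]
  exact pow_le_pow_left₀ (norm_nonneg _) (norm_cc_div h1) 2

/-- the product `∏_{j<k}(1-c^2/j^2)` -/
noncomputable def HH (a k : ℕ) : Q5 := ∏ j ∈ range k, (1 - cc a ^ 2 / (j : Q5) ^ 2)

lemma norm_HH {a k : ℕ} (h : k ≤ 5 ^ a) : ‖HH a k‖ ≤ 1 := by
  unfold HH
  rw [norm_prod]
  apply prod_le_one (fun _ _ => norm_nonneg _)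
  intro j hj
  have hj' := mem_range.mp hj
  refine nsub (by simp) ((norm_cc_div_sq (by omega)).trans ?_)
  norm_num

lemma norm_bd0 (a : ℕ) :
    ‖((5 ^ a : ℕ) : Q5) ^ 2 * T0 (xx a 0) (5 ^ a)‖ ≤ ((5 : ℝ)⁻¹) ^ (2 * a + 1) := by
  obtain ⟨N, hN⟩ : ∃ N, 5 ^ a = N + 1 := ⟨5 ^ a - 1, by
    have : 0 < 5 ^ a := by positivity
    omega⟩
  rw [xx_zero, hN]
  have h1 := term_eq (cc a) N
  have hne : ((N + 1 : ℕ) : Q5) ≠ 0 := by exact_mod_cast Nat.succ_ne_zero N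
  have e : ((N + 1 : ℕ) : Q5) ^ 2 * T0 (-cc a) (N + 1) =
      cc a * (1 / 2) ^ (N + 1) * (((N + 1 : ℕ) : Q5) - cc a) * HH a (N + 1) := by
    have e2 : ((N + 1 : ℕ) : Q5) ^ 2 * T0 (-cc a) (N + 1) =
        ((N + 1 : ℕ) : Q5) * (((N + 1 : ℕ) : Q5) * T0 (-cc a) (N + 1)) := by ring
    rw [e2, h1]
    unfold HH
    field_simp
  rw [e, norm_mul, norm_mul, norm_mul]
  have f1 : ((N + 1 : ℕ) : Q5) - cc a = 5 * cc a := by
    rw [← hN]; unfold cc; push_cast; ring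
  have f2 : ‖((1 : Q5) / 2) ^ (N + 1)‖ = 1 := by
    rw [norm_pow, norm_div, norm2]; simp
  rw [f1, f2, norm_mul, norm5, norm_cc]
  have f3 := norm_HH (a := a) (k := N + 1) (by omega)
  calc ((5 : ℝ)⁻¹) ^ a * 1 * ((5 : ℝ)⁻¹ * ((5 : ℝ)⁻¹) ^ a) * ‖HH a (N + 1)‖
      ≤ ((5 : ℝ)⁻¹) ^ a * 1 * ((5 : ℝ)⁻¹ * ((5 : ℝ)⁻¹) ^ a) * 1 :=
        mul_le_mul_of_nonneg_left f3 (by positivity)
    _ = ((5 : ℝ)⁻¹) ^ (2 * a + 1) := by ring

end Pool.Agent.X234.FV
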