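import Mathlib

/-!
# The two-step recurrence in `x` of `∑ k (-x)_k (1+x)_k / (k!^2 2^k)`
-/

set_option autoImplicit false

namespace Pool.Agent.X234.FV

open Finset

variable {K : Type*} [Field K] [CharZero K]

/-- `(-x)_k (1+x)_k / (k!^2 2^k)` -/
def T0 (x : K) (k : ℕ) : K := ∏ j ∈ range k, ((j : K) - x) * (j + 1 + x) / (2 * (j + 1) ^ 2)

/-- `∑_{k<N} k (-x)_k (1+x)_k / (k!^2 2^k)` -/
def ff (x : K) (N : ℕ) : K := ∑ k ∈ range N, (k : K) * T0 x k

lemma T0_succ (x : K) (k : ℕ) :
    T0 x (k + 1) = T0 x k * (((k : K) - x) * (k + 1 + x) / (2 * (k + 1) ^ 2)) := by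
  unfold T0
  rw [prod_range_succ]

lemma T0_shift (x : K) (hx : ∀ z : ℤ, x + z ≠ 0) (k : ℕ) :
    T0 (x + 2) k * ((x + 1 - k) * (x + 2 - k)) = T0 x k * ((x + 1 + k) * (x + 2 + k)) := by
  induction k with
  | zero => simp [T0]
  | succ k ih =>
    rw [T0_succ, T0_succ]
    push_cast
    have h1 : x + 1 - k ≠ 0 := by
      have := hx (1 - k); push_cast at this; intro h; exact this (by linear_combination h)
    have hk : (k : K) + 1 ≠ 0 := by exact_mod_cast Nat.succ_ne_zero k
    have e1 : T0 (x + 2) k * ((k : K) - (x + 2)) * (x + 1 - k) =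
        -(T0 x k * ((x + 1 + k) * (x + 2 + k))) := by
      linear_combination (-1 : K) * ih
    field_simp
    linear_combination ((k : K) + 1 + (x + 2)) * (x + 1 - (k + 1)) * e1

/-- the recurrence with its boundary term -/
theorem ff_rec (x : K) (hx : ∀ z : ℤ, x + z ≠ 0) (N : ℕ) :
    (x + 1) * ff (x + 2) N + (x + 2) * ff x N =
      -(2 * (2 * x + 3) * (N - 1) * (N ^ 2 * T0 x N)) / ((x + 1 - N) * (x + 2 - N)) := by
  induction N with
  | zero => simp [ff]
  | succ N ih =>
    have h1 : x + 1 - N ≠ 0 := by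
      have := hx (1 - N); push_cast at this; intro h; exact this (by linear_combination h)
    have h2 : x + 2 - N ≠ 0 := by
      have := hx (2 - N); push_cast at this; intro h; exact this (by linear_combination h)
    have h3 : x - N ≠ 0 := by
      have := hx (-N); push_cast at this; intro h; exact this (by linear_combination h)
    have hk : (N : K) + 1 ≠ 0 := by exact_mod_cast Nat.succ_ne_zero N
    have e : T0 (x + 2) N = T0 x N * ((x + 1 + N) * (x + 2 + N)) / ((x + 1 - N) * (x + 2 - N)) := by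
      rw [eq_div_iff (mul_ne_zero h1 h2)]
      exact T0_shift x hx N
    have s1 : ff (x + 2) (N + 1) = ff (x + 2) N + N * T0 (x + 2) N := by
      unfold ff; rw [sum_range_succ]
    have s2 : ff x (N + 1) = ff x N + N * T0 x N := by
      unfold ff; rw [sum_range_succ]
    rw [s1, s2]
    have e3 : (x + 1) * (ff (x + 2) N + N * T0 (x + 2) N) + (x + 2) * (ff x N + N * T0 x N) =
        ((x + 1) * ff (x + 2) N + (x + 2) * ff x N) + (x + 1) * (N * T0 (x + 2) N) +
          (x + 2) * (N * T0 x N) := by ring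
    rw [e3, ih, e, T0_succ]
    push_cast
    have h4 : x + 1 - ((N : K) + 1) ≠ 0 := by
      intro h; exact h3 (by linear_combination h)
    have h5 : x + 2 - ((N : K) + 1) ≠ 0 := by
      intro h; exact h1 (by linear_combination h)
    rw [show x + 1 - ((N : K) + 1) = x - N by ring, show x + 2 - ((N : K) + 1) = x + 1 - N by ring]
    field_simp
    ring

/-- the closed form of a term at `x = -c` -/
theorem term_eq (c : K) (k : ℕ) :
    ((k + 1 : ℕ) : K) * T0 (-c) (k + 1) =
      c * (1 / 2) ^ (k + 1) * (1 - c / (k + 1 : ℕ)) *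
        ∏ j ∈ range (k + 1), (1 - c ^ 2 / (j : K) ^ 2) := by
  induction k with
  | zero =>
    simp [T0]
    ring
  | succ k ih =>
    have hk : ((k + 1 : ℕ) : K) ≠ 0 := by exact_mod_cast Nat.succ_ne_zero k
    have hk2 : ((k + 1 + 1 : ℕ) : K) ≠ 0 := by exact_mod_cast Nat.succ_ne_zero (k + 1)
    have hk' : (k : K) + 1 ≠ 0 := by exact_mod_cast Nat.succ_ne_zero k
    have hk2' : (k : K) + 1 + 1 ≠ 0 := by exact_mod_cast Nat.succ_ne_zero (k + 1)
    have e1 : T0 (-c) (k + 1) = c * (1 / 2) ^ (k + 1) * (1 - c / (k + 1 : ℕ)) *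
        (∏ j ∈ range (k + 1), (1 - c ^ 2 / (j : K) ^ 2)) / ((k + 1 : ℕ) : K) := by
      rw [eq_div_iff hk, ← ih]; ring
    rw [T0_succ, e1, prod_range_succ _ (k + 1), pow_succ (1 / 2 : K) (k + 1)]
    generalize (∏ j ∈ range (k + 1), (1 - c ^ 2 / (j : K) ^ 2)) = R
    generalize ((1 : K) / 2) ^ (k + 1) = Z
    push_cast
    field_simp
    ring

end Pool.Agent.X234.FV
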