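import Pool.Agent.X234.FV.Bdy

/-!
# The value at the base point
-/

set_option autoImplicit false

namespace Pool.Agent.X234.FV

open Finset

/-- 1/5 as a real number -/
noncomputable abbrev q : ℝ := (5 : ℝ)⁻¹

lemma q_pow_le {m n : ℕ} (h : n ≤ m) : q ^ m ≤ q ^ n :=
  pow_le_pow_of_le_one (by norm_num) (by norm_num) h

lemma norm_half_pow (k : ℕ) : ‖((1 : Q5) / 2) ^ k‖ = 1 := by
  rw [norm_pow, norm_div, norm2]; simp

lemma ff_base (a N : ℕ) : ff (xx a 0) (N + 1) =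
    cc a * (∑ k ∈ range (N + 1), (1 / 2) ^ k * (1 - cc a / (k : Q5)) * HH a k - 1) := by
  rw [xx_zero]
  unfold ff
  rw [sum_range_succ', sum_range_succ' (fun k : ℕ => ((1 : Q5) / 2) ^ k * (1 - cc a / (k : Q5)) * HH a k)]
  have h0 : ((1 : Q5) / 2) ^ 0 * (1 - cc a / ((0 : ℕ) : Q5)) * HH a 0 = 1 := by simp [HH]
  rw [h0, add_sub_cancel_right, mul_sum]
  simp only [Nat.cast_zero, zero_mul, add_zero]
  refine sum_congr rfl fun k _ => ?_
  rw [term_eq]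
  unfold HH
  ring

lemma norm_EE {a k : ℕ} (h : k ≤ 5 ^ a) :
    ‖∑ j ∈ range k, cc a ^ 2 / (j : Q5) ^ 2‖ ≤ q ^ 2 := by
  apply nsum (by positivity)
  intro j hj
  have hj' := mem_range.mp hj
  exact norm_cc_div_sq (by omega)

lemma HH_approx {a : ℕ} (k : ℕ) (h : k ≤ 5 ^ a) :
    ‖HH a k - (1 - ∑ j ∈ range k, cc a ^ 2 / (j : Q5) ^ 2)‖ ≤ q ^ 4 := by
  induction k with
  | zero => simp [HH]
  | succ k ih =>
    have ih' := ih (by omega)
    have h1 := norm_EE (a := a) (k := k) (by omega)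
    have h2 : ‖HH a k - 1‖ ≤ q ^ 2 := by
      have e : HH a k - 1 = (HH a k - (1 - ∑ j ∈ range k, cc a ^ 2 / (j : Q5) ^ 2)) -
          ∑ j ∈ range k, cc a ^ 2 / (j : Q5) ^ 2 := by ring
      rw [e]
      exact nsub (ih'.trans (q_pow_le (by norm_num))) h1
    have h3 := norm_cc_div_sq (a := a) (k := k) (by omega)
    have e : HH a (k + 1) - (1 - ∑ j ∈ range (k + 1), cc a ^ 2 / (j : Q5) ^ 2) =
        (HH a k - (1 - ∑ j ∈ range k, cc a ^ 2 / (j : Q5) ^ 2)) -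
          cc a ^ 2 / (k : Q5) ^ 2 * (HH a k - 1) := by
      unfold HH
      rw [prod_range_succ, sum_range_succ]
      ring
    rw [e]
    apply nsub ih'
    rw [norm_mul, show q ^ 4 = q ^ 2 * q ^ 2 by ring]
    exact mul_le_mul h3 h2 (norm_nonneg _) (by positivity)

lemma term_approx {a : ℕ} (k : ℕ) (h : k < 5 ^ a) :
    ‖(1 / 2 : Q5) ^ k * (1 - cc a / (k : Q5)) * HH a k -
      ((1 / 2) ^ k - (1 / 2) ^ k * (cc a / (k : Q5)) -
        (1 / 2) ^ k * ∑ j ∈ range k, cc a ^ 2 / (j : Q5) ^ 2)‖ ≤ q ^ 3 := by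
  have h1 := HH_approx (a := a) k h.le
  have h2 := norm_EE (a := a) (k := k) h.le
  have h3 := norm_cc_div h
  generalize (∑ j ∈ range k, cc a ^ 2 / (j : Q5) ^ 2) = E at *
  generalize HH a k = H at *
  generalize cc a / (k : Q5) = t at *
  have e : (1 / 2 : Q5) ^ k * (1 - t) * H - ((1 / 2) ^ k - (1 / 2) ^ k * t - (1 / 2) ^ k * E) =
      (1 / 2) ^ k * ((1 - t) * (H - (1 - E)) + t * E) := by ring
  rw [e, norm_mul, norm_half_pow, one_mul]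
  apply nadd
  · rw [norm_mul]
    have h4 : ‖1 - t‖ ≤ 1 := nsub (by simp) (h3.trans (by norm_num))
    calc ‖1 - t‖ * ‖H - (1 - E)‖ ≤ 1 * q ^ 4 := mul_le_mul h4 h1 (norm_nonneg _) (by norm_num)
      _ ≤ q ^ 3 := by rw [one_mul]; exact q_pow_le (by norm_num)
  · rw [norm_mul, show q ^ 3 = q * q ^ 2 by ring]
    exact mul_le_mul h3 h2 (norm_nonneg _) (by positivity)

lemma swap_sum (e : ℕ → Q5) (N : ℕ) :
    ∑ k ∈ range N, (1 / 2 : Q5) ^ k * ∑ j ∈ range k, e j =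
      ∑ j ∈ range N, e j * ((1 / 2) ^ j - 2 * (1 / 2) ^ N) := by
  induction N with
  | zero => simp
  | succ N ih =>
    rw [sum_range_succ, ih, sum_range_succ (fun j => e j * ((1 / 2 : Q5) ^ j - 2 * (1 / 2) ^ (N + 1)))]
    have e1 : ∑ j ∈ range N, e j * ((1 / 2 : Q5) ^ j - 2 * (1 / 2) ^ (N + 1)) =
        ∑ j ∈ range N, e j * ((1 / 2) ^ j - 2 * (1 / 2) ^ N) + (1 / 2) ^ N * ∑ j ∈ range N, e j := by
      rw [mul_sum, ← sum_add_distrib]
      refine sum_congr rfl fun j _ => ?_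
      ring
    rw [e1]
    ring

lemma geom_half (N : ℕ) : ∑ k ∈ range N, (1 / 2 : Q5) ^ k = 2 - 2 * (1 / 2) ^ N := by
  induction N with
  | zero => simp
  | succ N ih => rw [sum_range_succ, ih]; ring

/-- the main approximation -/
lemma base_approx {a N : ℕ} (hN : 5 ^ a = N) :
    ‖(∑ k ∈ range N, (1 / 2) ^ k * (1 - cc a / (k : Q5)) * HH a k - 1) -
      (1 - 2 * (1 / 2) ^ N - ∑ k ∈ range N, (1 / 2) ^ k * (cc a / (k : Q5)) -
        ∑ j ∈ range N, cc a ^ 2 / (j : Q5) ^ 2 * ((1 / 2) ^ j - 2 * (1 / 2) ^ N))‖ ≤ q ^ 3 := by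
  have h1 : (∑ k ∈ range N, (1 / 2 : Q5) ^ k * (1 - cc a / (k : Q5)) * HH a k - 1) -
      (1 - 2 * (1 / 2) ^ N - ∑ k ∈ range N, (1 / 2) ^ k * (cc a / (k : Q5)) -
        ∑ j ∈ range N, cc a ^ 2 / (j : Q5) ^ 2 * ((1 / 2) ^ j - 2 * (1 / 2) ^ N)) =
      ∑ k ∈ range N, ((1 / 2 : Q5) ^ k * (1 - cc a / (k : Q5)) * HH a k -
      ((1 / 2) ^ k - (1 / 2) ^ k * (cc a / (k : Q5)) -
        (1 / 2) ^ k * ∑ j ∈ range k, cc a ^ 2 / (j : Q5) ^ 2)) := by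
    rw [sum_sub_distrib, sum_sub_distrib, sum_sub_distrib, swap_sum, geom_half]
    ring
  rw [h1]
  apply nsum (by positivity)
  intro k hk
  have hk' := mem_range.mp hk
  exact term_approx k (by omega)

/-- only the multiples of `M` matter -/
lemma blk {M : ℕ} (hM : 0 < M) (φ : ℕ → Q5) {C : ℝ} (hC : 0 ≤ C) (B : ℕ)
    (h : ∀ k < M * B, ¬ M ∣ k → ‖φ k‖ ≤ C) :
    ‖∑ k ∈ range (M * B), φ k - ∑ i ∈ range B, φ (M * i)‖ ≤ C := by
  induction B with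
  | zero => simpa using hC
  | succ B ih =>
    have ih' := ih (fun k hk hd => h k (by nlinarith) hd)
    rw [Nat.mul_succ, sum_range_add, sum_range_succ]
    obtain ⟨m, rfl⟩ : ∃ m, M = m + 1 := ⟨M - 1, by omega⟩
    rw [sum_range_succ' (fun r => φ ((m + 1) * B + r)) m]
    have e : ∑ k ∈ range ((m + 1) * B), φ k + (∑ r ∈ range m, φ ((m + 1) * B + (r + 1)) +
        φ ((m + 1) * B + 0)) - (∑ i ∈ range B, φ ((m + 1) * i) + φ ((m + 1) * B)) =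
        (∑ k ∈ range ((m + 1) * B), φ k - ∑ i ∈ range B, φ ((m + 1) * i)) +
          ∑ r ∈ range m, φ ((m + 1) * B + (r + 1)) := by
      rw [add_zero]; ring
    rw [e]
    apply nadd ih'
    apply nsum hC
    intro r hr
    have hr' := mem_range.mp hr
    apply h
    · rw [Nat.mul_succ]; omega
    · intro hd
      have := (Nat.dvd_add_right (Dvd.intro B rfl : (m + 1) ∣ (m + 1) * B)).mp hd
      exact absurd (Nat.le_of_dvd (by omega) this) (by omega)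

lemma small_div {b k : ℕ} (h : ¬ 5 ^ b ∣ k) : ‖cc (b + 2) / (k : Q5)‖ ≤ q ^ 3 := by
  rcases Nat.eq_zero_or_pos b with hb | hb
  · subst hb; exact absurd (one_dvd k) h
  obtain ⟨c, rfl⟩ : ∃ c, b = c + 1 := ⟨b - 1, by omega⟩
  rw [norm_div, norm_cc]
  have h2 : ((5 : ℝ)⁻¹) ^ c ≤ ‖(k : Q5)‖ := norm_nat_ge h
  have h3 : 0 < ‖(k : Q5)‖ := lt_of_lt_of_le (by positivity) h2
  rw [div_le_iff₀ h3]
  calc ((5 : ℝ)⁻¹) ^ (c + 1 + 2) = q ^ 3 * ((5 : ℝ)⁻¹) ^ c := by unfold q; ring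
    _ ≤ q ^ 3 * ‖(k : Q5)‖ := mul_le_mul_of_nonneg_left h2 (by positivity)

lemma pow_sub_le {u v : Q5} (hu : ‖u‖ ≤ 1) (hv : ‖v‖ ≤ 1) (i : ℕ) {C : ℝ} (hC : 0 ≤ C)
    (h : ‖u - v‖ ≤ C) : ‖u ^ i - v ^ i‖ ≤ C := by
  induction i with
  | zero => simpa using hC
  | succ i ih =>
    have e : u ^ (i + 1) - v ^ (i + 1) = u ^ i * (u - v) + v * (u ^ i - v ^ i) := by ring
    rw [e]
    apply nadd
    · rw [norm_mul, norm_pow]
      calc ‖u‖ ^ i * ‖u - v‖ ≤ 1 * C :=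
            mul_le_mul (pow_le_one₀ (norm_nonneg _) hu) h (norm_nonneg _) (by norm_num)
        _ = C := one_mul C
    · rw [norm_mul]
      calc ‖v‖ * ‖u ^ i - v ^ i‖ ≤ 1 * C := mul_le_mul hv ih (norm_nonneg _) (by norm_num)
        _ = C := one_mul C

lemma pow5_sub_le {u v : Q5} (hu : ‖u‖ ≤ 1) (hv : ‖v‖ ≤ 1) {m : ℕ} (hm : 1 ≤ m)
    (h : ‖u - v‖ ≤ q ^ m) : ‖u ^ 5 - v ^ 5‖ ≤ q ^ (m + 1) := by
  have e : u ^ 5 - v ^ 5 = (u - v) * (5 * v ^ 4 + (u - v) *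
      (10 * v ^ 3 + 10 * v ^ 2 * (u - v) + 5 * v * (u - v) ^ 2 + (u - v) ^ 3)) := by ring
  have hd : ‖u - v‖ ≤ 1 := nsub hu hv
  have hd5 : ‖u - v‖ ≤ q := h.trans (by simpa using q_pow_le hm)
  rw [e, norm_mul, pow_succ q m]
  refine mul_le_mul h ?_ (norm_nonneg _) (by positivity)
  apply nadd
  · rw [norm_mul, norm5, norm_pow]
    exact mul_le_of_le_one_right (by positivity) (pow_le_one₀ (norm_nonneg _) hv)
  · rw [norm_mul]
    refine (mul_le_of_le_one_right (norm_nonneg _) ?_).trans hd5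
    have n10 : ‖(10 : Q5)‖ ≤ 1 := by have := norm_nat_le 10; simpa using this
    have n5 : ‖(5 : Q5)‖ ≤ 1 := by have := norm_nat_le 5; simpa using this
    refine nadd (nadd (nadd ?_ ?_) ?_) ?_
    · rw [norm_mul, norm_pow]; exact mul_le_one₀ n10 (by positivity) (pow_le_one₀ (norm_nonneg _) hv)
    · rw [norm_mul, norm_mul, norm_pow]
      exact mul_le_one₀ (mul_le_one₀ n10 (by positivity) (pow_le_one₀ (norm_nonneg _) hv))
        (norm_nonneg _) hd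
    · rw [norm_mul, norm_mul, norm_pow]
      exact mul_le_one₀ (mul_le_one₀ n5 (by positivity) hv) (by positivity)
        (pow_le_one₀ (norm_nonneg _) hd)
    · rw [norm_pow]; exact pow_le_one₀ (norm_nonneg _) hd

/-- the constant of the evaluation -/
lemma const_val : ‖(1 - 2 * (3 : Q5) ^ 25 - ∑ i ∈ range 25, (3 : Q5) ^ i * (25 / (6 * (i : Q5))) -
    ∑ i ∈ range 25, 625 / (36 * (i : Q5) ^ 2) * (3 ^ i - 2 * 3 ^ 25)) - 75‖ ≤ q ^ 3 := by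
  have e : (1 - 2 * (3 : ℚ) ^ 25 - ∑ i ∈ range 25, (3 : ℚ) ^ i * (25 / (6 * (i : ℚ))) -
      ∑ i ∈ range 25, 625 / (36 * (i : ℚ) ^ 2) * (3 ^ i - 2 * 3 ^ 25)) - 75 =
      5 ^ 3 * ((5610430131412078236993064345 : ℕ) / (15443914827973632 : ℕ)) := by
    norm_num [sum_range_succ]
  have e2 := congrArg (fun x : ℚ => (x : Q5)) e
  push_cast at e2
  rw [e2, norm_mul, norm_div, norm_pow, norm5]
  have h1 : ‖((5610430131412078236993064345 : ℕ) : Q5)‖ ≤ 1 := norm_nat_le _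
  have h2 : ‖((15443914827973632 : ℕ) : Q5)‖ = 1 := norm_unit (by norm_num)
  push_cast at h1 h2
  rw [h2, div_one]
  exact mul_le_of_le_one_right (by positivity) h1

lemma norm3 : ‖(3 : Q5)‖ ≤ 1 := by have := norm_nat_le 3; simpa using this

lemma half_pow_congr (b : ℕ) : ‖(1 / 2 : Q5) ^ (5 ^ b) - 3‖ ≤ q := by
  induction b with
  | zero =>
    have e : (1 / 2 : Q5) ^ (5 ^ 0) - 3 = -(5 / 2) := by norm_num
    rw [e, norm_neg, norm_div, norm5, norm2, div_one]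
  | succ b ih =>
    have hu : ‖(1 / 2 : Q5) ^ (5 ^ b)‖ ≤ 1 := (norm_half_pow _).le
    have h1 := pow_sub_le hu norm3 5 (by positivity) ih
    rw [pow_succ 5 b, pow_mul]
    have e : ((1 / 2 : Q5) ^ 5 ^ b) ^ 5 - 3 = (((1 / 2 : Q5) ^ 5 ^ b) ^ 5 - 3 ^ 5) + 5 * 48 := by
      ring
    rw [e]
    apply nadd h1
    rw [norm_mul, norm5]
    have := norm_nat_le 48
    have h48 : ‖(48 : Q5)‖ ≤ 1 := by simpa using this
    exact mul_le_of_le_one_right (by positivity) h48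

/-- replacing `u` by 3 in a weighted power -/
lemma weighted {u : Q5} (hu : ‖u‖ ≤ 1) (h : ‖u - 3‖ ≤ q) (i : ℕ) (hi : i < 25) :
    ‖(25 / (6 * (i : Q5))) * (u ^ i - 3 ^ i)‖ ≤ q ^ 3 := by
  rcases Nat.eq_zero_or_pos i with h0 | h0
  · subst h0; simp
  have n25 : ‖(25 : Q5)‖ = q ^ 2 := by
    rw [show (25 : Q5) = 5 ^ 2 by norm_num, norm_pow, norm5]
  by_cases h5 : 5 ∣ i
  · obtain ⟨j, rfl⟩ := h5
    have h51 := pow5_sub_le hu norm3 (m := 1) le_rfl (by simpa using h)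
    have h52 := pow_sub_le (u := u ^ 5) (v := 3 ^ 5) (by rw [norm_pow]; exact pow_le_one₀ (norm_nonneg _) hu)
      (by rw [norm_pow]; exact pow_le_one₀ (norm_nonneg _) norm3) j (by positivity) h51
    rw [pow_mul, pow_mul, norm_mul, norm_div, norm_mul, norm6, one_mul, Nat.cast_mul, norm_mul, n25,
      norm_unit (n := j) (by omega)]
    have h53 : ‖((5 : ℕ) : Q5)‖ = q := by
      have := norm5; push_cast; exact this
    rw [h53]
    calc q ^ 2 / (q * 1) * ‖(u ^ 5) ^ j - (3 ^ 5) ^ j‖ = q * ‖(u ^ 5) ^ j - (3 ^ 5) ^ j‖ := by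
          have : q ≠ 0 := by norm_num
          field_simp
      _ ≤ q * q ^ 2 := mul_le_mul_of_nonneg_left h52 (by positivity)
      _ = q ^ 3 := by ring
  · rw [norm_mul, norm_div, norm_mul, norm6, one_mul, norm_unit h5, n25, div_one]
    have h3 := pow_sub_le hu norm3 i (by positivity) h
    calc q ^ 2 * ‖u ^ i - 3 ^ i‖ ≤ q ^ 2 * q := mul_le_mul_of_nonneg_left h3 (by positivity)
      _ = q ^ 3 := by ring

lemma u25 {u : Q5} (hu : ‖u‖ ≤ 1) (h : ‖u - 3‖ ≤ q) : ‖u ^ 25 - 3 ^ 25‖ ≤ q ^ 3 := by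
  have h51 := pow5_sub_le hu norm3 (m := 1) le_rfl (by simpa using h)
  have h52 := pow5_sub_le (u := u ^ 5) (v := 3 ^ 5)
    (by rw [norm_pow]; exact pow_le_one₀ (norm_nonneg _) hu)
    (by rw [norm_pow]; exact pow_le_one₀ (norm_nonneg _) norm3) (m := 2) (by norm_num) h51
  rw [← pow_mul, ← pow_mul] at h52
  exact h52

lemma weighted2 {u : Q5} (hu : ‖u‖ ≤ 1) (h : ‖u - 3‖ ≤ q) (i : ℕ) (hi : i < 25) :
    ‖625 / (36 * (i : Q5) ^ 2) * (u ^ i - 2 * u ^ 25) -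
      625 / (36 * (i : Q5) ^ 2) * (3 ^ i - 2 * 3 ^ 25)‖ ≤ q ^ 3 := by
  rcases Nat.eq_zero_or_pos i with h0 | h0
  · subst h0; simp
  have h1 := weighted hu h i hi
  have h2 := u25 hu h
  have hi0 : (i : Q5) ≠ 0 := by exact_mod_cast h0.ne'
  have e : 625 / (36 * (i : Q5) ^ 2) * (u ^ i - 2 * u ^ 25) -
      625 / (36 * (i : Q5) ^ 2) * (3 ^ i - 2 * 3 ^ 25) =
      (25 / (6 * (i : Q5))) * ((25 / (6 * (i : Q5))) * (u ^ i - 3 ^ i)) -
        (25 / (6 * (i : Q5))) ^ 2 * (2 * (u ^ 25 - 3 ^ 25)) := by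
    field_simp
    ring
  have h3 : ‖25 / (6 * (i : Q5))‖ ≤ 1 := by
    rw [norm_div, norm_mul, norm6, one_mul]
    have h4 := norm_nat_ge (n := i) (e := 1) (fun hd => absurd (Nat.le_of_dvd h0 hd) (by omega))
    have h5 : 0 < ‖(i : Q5)‖ := lt_of_lt_of_le (by positivity) h4
    rw [div_le_one h5]
    have n25 : ‖(25 : Q5)‖ = q ^ 2 := by
      rw [show (25 : Q5) = 5 ^ 2 by norm_num, norm_pow, norm5]
    rw [n25]
    exact (q_pow_le (by norm_num)).trans h4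
  rw [e]
  apply nsub
  · rw [norm_mul]
    calc _ ≤ 1 * q ^ 3 := mul_le_mul h3 h1 (norm_nonneg _) (by norm_num)
      _ = q ^ 3 := one_mul _
  · rw [norm_mul, norm_mul, norm2, one_mul, norm_pow]
    calc _ ≤ 1 * q ^ 3 := mul_le_mul (pow_le_one₀ (norm_nonneg _) h3) h2 (norm_nonneg _) (by norm_num)
      _ = q ^ 3 := one_mul _

/-- the value at the base point: `f(x_0) ≡ 75·5^a` up to the factor, with `6 f(x_0)/5^a ≡ 75` -/
theorem base_val (b : ℕ) :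
    ∃ A : Q5, ff (xx (b + 2) 0) (5 ^ (b + 2)) = cc (b + 2) * A ∧ ‖A - 75‖ ≤ q ^ 3 := by
  obtain ⟨N, hN⟩ : ∃ N, 5 ^ (b + 2) = N + 1 := ⟨5 ^ (b + 2) - 1, by
    have : 0 < 5 ^ (b + 2) := by positivity
    omega⟩
  refine ⟨∑ k ∈ range (5 ^ (b + 2)), (1 / 2) ^ k * (1 - cc (b + 2) / (k : Q5)) * HH (b + 2) k - 1,
    ?_, ?_⟩
  · rw [hN]; exact ff_base _ _
  have h1 := base_approx (a := b + 2) rfl
  have hM : 5 ^ (b + 2) = 5 ^ b * 25 := by rw [pow_add]; norm_num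
  have hpos : 0 < 5 ^ b := by positivity
  have h2 := blk hpos (fun k => (1 / 2 : Q5) ^ k * (cc (b + 2) / (k : Q5))) (C := q ^ 3)
    (by positivity) 25 (by
      intro k _ hk
      rw [norm_mul, norm_half_pow, one_mul]
      exact small_div hk)
  have h3 := blk hpos (fun k => cc (b + 2) ^ 2 / (k : Q5) ^ 2 * ((1 / 2) ^ k - 2 * (1 / 2) ^ (5 ^ (b + 2))))
    (C := q ^ 3) (by positivity) 25 (by
      intro k _ hk
      have s1 := small_div hk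
      rw [norm_mul, ← div_pow, norm_pow]
      have s2 : ‖(1 / 2 : Q5) ^ k - 2 * (1 / 2) ^ (5 ^ (b + 2))‖ ≤ 1 := by
        apply nsub (norm_half_pow _).le
        rw [norm_mul, norm2, norm_half_pow, one_mul]
      calc _ ≤ (q ^ 3) ^ 2 * 1 := mul_le_mul (pow_le_pow_left₀ (norm_nonneg _) s1 2) s2
            (norm_nonneg _) (by positivity)
        _ = q ^ 6 := by ring
        _ ≤ q ^ 3 := q_pow_le (by norm_num))
  have hu : ‖(1 / 2 : Q5) ^ (5 ^ b)‖ ≤ 1 := (norm_half_pow _).le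
  have hu3 := half_pow_congr b
  have hpow : (1 / 2 : Q5) ^ (5 ^ (b + 2)) = ((1 / 2) ^ (5 ^ b)) ^ 25 := by
    rw [hM, pow_mul]
  have hcc : cc (b + 2) = 25 / 6 * (5 : Q5) ^ b := by
    unfold cc; rw [pow_add]; ring
  have h5b : (5 : Q5) ^ b ≠ 0 := pow_ne_zero _ (by norm_num)
  have e2 : ∑ i ∈ range 25, (fun k : ℕ => (1 / 2 : Q5) ^ k * (cc (b + 2) / (k : Q5))) (5 ^ b * i) =
      ∑ i ∈ range 25, ((1 / 2 : Q5) ^ (5 ^ b)) ^ i * (25 / (6 * (i : Q5))) := by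
    refine sum_congr rfl fun i _ => ?_
    rcases Nat.eq_zero_or_pos i with h0 | h0
    · subst h0; simp
    have hi0 : (i : Q5) ≠ 0 := by exact_mod_cast h0.ne'
    simp only []
    rw [pow_mul, hcc]
    push_cast
    field_simp
  have e3 : ∑ i ∈ range 25, (fun k : ℕ => cc (b + 2) ^ 2 / (k : Q5) ^ 2 *
      ((1 / 2 : Q5) ^ k - 2 * (1 / 2) ^ (5 ^ (b + 2)))) (5 ^ b * i) =
      ∑ i ∈ range 25, 625 / (36 * (i : Q5) ^ 2) * (((1 / 2 : Q5) ^ (5 ^ b)) ^ i -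
        2 * ((1 / 2 : Q5) ^ (5 ^ b)) ^ 25) := by
    refine sum_congr rfl fun i _ => ?_
    rcases Nat.eq_zero_or_pos i with h0 | h0
    · subst h0; simp
    have hi0 : (i : Q5) ≠ 0 := by exact_mod_cast h0.ne'
    simp only []
    rw [pow_mul (1 / 2 : Q5) (5 ^ b) i, hpow, hcc]
    push_cast
    have e4 : (25 / 6 * (5 : Q5) ^ b) ^ 2 / ((5 : Q5) ^ b * i) ^ 2 = 625 / (36 * (i : Q5) ^ 2) := by
      field_simp
      ring
    rw [e4]
  rw [e2, ← hM] at h2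
  rw [e3, ← hM] at h3
  rw [hpow] at h1 h3
  have hc := const_val
  have hw1 : ‖∑ i ∈ range 25, ((1 / 2 : Q5) ^ (5 ^ b)) ^ i * (25 / (6 * (i : Q5))) -
      ∑ i ∈ range 25, (3 : Q5) ^ i * (25 / (6 * (i : Q5)))‖ ≤ q ^ 3 := by
    rw [← sum_sub_distrib]
    apply nsum (by positivity)
    intro i hi
    have := weighted hu hu3 i (mem_range.mp hi)
    rw [← sub_mul, mul_comm]; exact this
  have hw2 : ‖∑ i ∈ range 25, 625 / (36 * (i : Q5) ^ 2) * (((1 / 2 : Q5) ^ (5 ^ b)) ^ i -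
        2 * ((1 / 2 : Q5) ^ (5 ^ b)) ^ 25) -
      ∑ i ∈ range 25, 625 / (36 * (i : Q5) ^ 2) * (3 ^ i - 2 * 3 ^ 25)‖ ≤ q ^ 3 := by
    rw [← sum_sub_distrib]
    apply nsum (by positivity)
    intro i hi
    exact weighted2 hu hu3 i (mem_range.mp hi)
  have hw3 := u25 hu hu3
  generalize (1 / 2 : Q5) ^ (5 ^ b) = u at *
  generalize (∑ k ∈ range (5 ^ (b + 2)), (1 / 2 : Q5) ^ k * (1 - cc (b + 2) / (k : Q5)) * HH (b + 2) k) = X1 at *
  generalize (∑ k ∈ range (5 ^ (b + 2)), (1 / 2 : Q5) ^ k * (cc (b + 2) / (k : Q5))) = X2 at *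
  generalize (∑ k ∈ range (5 ^ (b + 2)), cc (b + 2) ^ 2 / (k : Q5) ^ 2 * ((1 / 2 : Q5) ^ k - 2 * u ^ 25)) = X3 at *
  generalize (∑ i ∈ range 25, u ^ i * (25 / (6 * (i : Q5)))) = X4 at *
  generalize (∑ i ∈ range 25, 625 / (36 * (i : Q5) ^ 2) * (u ^ i - 2 * u ^ 25)) = X5 at *
  generalize (∑ i ∈ range 25, (3 : Q5) ^ i * (25 / (6 * (i : Q5)))) = X6 at *
  generalize (∑ i ∈ range 25, 625 / (36 * (i : Q5) ^ 2) * ((3 : Q5) ^ i - 2 * 3 ^ 25)) = X7 at *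
  have key : X1 - 1 - 75 = ((X1 - 1) - (1 - 2 * u ^ 25 - X2 - X3)) - (X2 - X4) - (X3 - X5) -
      (X4 - X6) - (X5 - X7) - 2 * (u ^ 25 - 3 ^ 25) + ((1 - 2 * 3 ^ 25 - X6 - X7) - 75) := by ring
  rw [key]
  refine nadd (nsub (nsub (nsub (nsub (nsub h1 h2) h3) hw1) hw2) ?_) hc
  rw [norm_mul, norm2, one_mul]
  exact hw3

end Pool.Agent.X234.FV
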